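import Pool.Agent.H12.FP.Fam4
import Pool.Agent.H12.FP.Small
import Pool.Agent.H12.FP.Up

/-!
# The exact maximum number of edges of fan-planar multigraphs without homotopic parallel edges

Drawings are described by `Pool.Agent.Q238.FP.Drawing` (vertices, edges, the crossing points along
each edge with the side from which the crossing edge comes, the rotation at each vertex, the faces).
`Loopless`, `Simple`, `FanPlanar` and `NonHomotopic` are the four conditions of the problem.

`edgeNumbers n` is the set of all numbers of edges of drawings with exactly `n` vertices which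
satisfy the four conditions, and `M n` is its supremum.
-/

set_option autoImplicit false

namespace Pool.Agent.Results.MP_7b591c_co.ExactMaximum

open Pool.Agent.Q238.FP

/-- `m` is the number of edges of a fan-planar multigraph without homotopic parallel edges on `n`
vertices -/
def edgeNumbers (n : ℕ) : Set ℕ :=
  {m | ∃ (V E F : Type) (_ : Fintype V) (_ : Fintype E) (_ : Finite F) (G : Drawing V E F),
    Fintype.card V = n ∧ G.Loopless ∧ G.Simple ∧ G.FanPlanar ∧ G.NonHomotopic ∧
      Fintype.card E = m}

/-- the function `M` of the problem -/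
noncomputable def M (n : ℕ) : ℕ := sSup (edgeNumbers n)

theorem mem_three : 3 ∈ edgeNumbers 3 :=
  ⟨_, _, _, inferInstance, inferInstance, inferInstance, Pool.Agent.H12.FP.G3, by decide,
    Pool.Agent.H12.FP.props3.1, Pool.Agent.H12.FP.props3.2.1, Pool.Agent.H12.FP.props3.2.2.1,
    Pool.Agent.H12.FP.props3.2.2.2, by decide⟩

theorem mem_four : 8 ∈ edgeNumbers 4 :=
  ⟨_, _, _, inferInstance, inferInstance, inferInstance, Pool.Agent.H12.FP.G4, by decide,
    Pool.Agent.H12.FP.props4.1, Pool.Agent.H12.FP.props4.2.1, Pool.Agent.H12.FP.props4.2.2.1,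
    Pool.Agent.H12.FP.props4.2.2.2, by decide⟩

theorem mem_five : 15 ∈ edgeNumbers 5 :=
  ⟨_, _, _, inferInstance, inferInstance, inferInstance, Pool.Agent.H12.FP.G5, by decide,
    Pool.Agent.H12.FP.props5.1, Pool.Agent.H12.FP.props5.2.1, Pool.Agent.H12.FP.props5.2.2.1,
    Pool.Agent.H12.FP.props5.2.2.2, by decide⟩

theorem mem_ge_six (k : ℕ) (hk : 4 ≤ k) : 5 * k ∈ edgeNumbers (k + 2) := by
  have : NeZero k := ⟨by omega⟩
  refine ⟨_, _, _, inferInstance, inferInstance, inferInstance, Pool.Agent.H12.FP.G k, ?_,
    Pool.Agent.H12.FP.loopless hk, Pool.Agent.H12.FP.simple hk, Pool.Agent.H12.FP.fanPlanar,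
    Pool.Agent.H12.FP.nonHomotopic hk, ?_⟩
  · rw [Fintype.card_sum, ZMod.card, Fintype.card_bool]
  · rw [Fintype.card_prod, ZMod.card, mul_comm]
    rfl

theorem isGreatest (n : ℕ) (hn : 3 ≤ n) :
    IsGreatest (edgeNumbers n) (if n = 3 then 3 else if n = 4 then 8 else 5 * n - 10) := by
  classical
  constructor
  · by_cases h3 : n = 3
    · subst h3
      exact mem_three
    · rw [if_neg h3]
      by_cases h4 : n = 4
      · subst h4
        exact mem_four
      · rw [if_neg h4]
        by_cases h5 : n = 5
        · subst h5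
          exact mem_five
        · obtain ⟨k, rfl⟩ : ∃ k, n = k + 2 := ⟨n - 2, by omega⟩
          have h6 : 5 * (k + 2) - 10 = 5 * k := by omega
          rw [h6]
          exact mem_ge_six k (by omega)
  · rintro m ⟨V, E, F, iV, iE, iF, G, hV, hl, hs, hf, hh, rfl⟩
    by_cases h3 : n = 3
    · rw [if_pos h3]
      exact Pool.Agent.H12.FP.card_three G hl hh (by rw [hV, h3])
    · rw [if_neg h3]
      by_cases h4 : n = 4
      · rw [if_pos h4]
        exact Pool.Agent.H12.FP.card_four G hl hs hh (by rw [hV, h4])
      · rw [if_neg h4]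
        have := G.card_edges_le hl hs hf hh (by rw [hV]; exact hn)
        rw [hV] at this
        omega

/-- **The exact value of `M n` for every `n ≥ 3`**: `M 3 = 3`, `M 4 = 8` and `M n = 5 n - 10` for all
`n ≥ 5`; the maximum is attained in each case. -/
theorem result (n : ℕ) (hn : 3 ≤ n) :
    M n = (if n = 3 then 3 else if n = 4 then 8 else 5 * n - 10) ∧
      IsGreatest (edgeNumbers n) (M n) := by
  have h := isGreatest n hn
  have h1 : M n = (if n = 3 then 3 else if n = 4 then 8 else 5 * n - 10) := h.csSup_eq
  exact ⟨h1, by rw [h1]; exact h⟩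

end Pool.Agent.Results.MP_7b591c_co.ExactMaximum
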